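import Mathlib
import Pool.Agent.Helper24.Cubic.Immersion

set_option autoImplicit false

/-!
# Statements of the packets for `MP_f0185d_an` (affine cubic hypersurfaces of flex type)
-/

namespace Pool.Agent.Helper51.Flex

open Pool.Agent.Helper24.Cubic

/-- FX-EU: the Euler operator `3 x ∂_x + y ∂_y` is onto the entire functions vanishing at `0`. -/
def EU : Prop := ∀ R : ℂ × ℂ → ℂ, Differentiable ℂ R → R (0, 0) = 0 →
  ∃ k : ℂ × ℂ → ℂ, Differentiable ℂ k ∧ k (0, 0) = 0 ∧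
    ∀ x y : ℂ, fderiv ℂ k (x, y) (3 * x, y) = R (x, y)

/-- FX-CS: `cosh (2√x)` and `sinh (2√x) / √x` are entire. -/
def CS : Prop := ∃ C S : ℂ → ℂ, Differentiable ℂ C ∧ Differentiable ℂ S ∧ C 0 = 1 ∧ S 0 = 2 ∧
  (∀ y : ℂ, C (y ^ 2) = Complex.cosh (2 * y)) ∧ ∀ y : ℂ, y * S (y ^ 2) = Complex.sinh (2 * y)

/-- FX-FUN: the key function of flex type. -/
def FlexFun : Prop := ∃ a : ℂ × ℂ → ℂ, Differentiable ℂ a ∧
  ∀ w l : ℂ, 2 * w * l + fderiv ℂ a (w, l) (2 * w ^ 2 * l - 3, 2 * w * l ^ 2) ≠ 0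

/-- FX-CORE: the hypersurface `w² L(u) + f(u) = 1`, `L` linear, `f` homogeneous of degree `3`. -/
def FlexCore : Prop := ∀ (n : ℕ) (L : (Fin n → ℂ) →L[ℂ] ℂ) (f : (Fin n → ℂ) → ℂ),
  Differentiable ℂ f → (∀ (t : ℂ) (u : Fin n → ℂ), f (t • u) = t ^ 3 * f u) →
  ∃ Φ : (Fin n → ℂ) × ℂ → (Fin n → ℂ), Differentiable ℂ Φ ∧
    ∀ z : (Fin n → ℂ) × ℂ, z.2 ^ 2 * L z.1 + f z.1 = 1 →
      ∀ v : (Fin n → ℂ) × ℂ,
        fderiv ℂ (fun p : (Fin n → ℂ) × ℂ => p.2 ^ 2 * L p.1 + f p.1) z v = 0 →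
        fderiv ℂ Φ z v = 0 → v = 0

/-- the conclusion of the problem for the pair `(g, f)` -/
def Immerses {n : ℕ} (g f : MvPolynomial (Fin n) ℂ) : Prop :=
  ∃ F : (Fin n → ℂ) × ℂ → (Fin n → ℂ), Differentiable ℂ F ∧
    ∀ z : (Fin n → ℂ) × ℂ, cubic g f z = 1 → ∀ v : (Fin n → ℂ) × ℂ,
      fderiv ℂ (cubic g f) z v = 0 → fderiv ℂ F z v = 0 → v = 0

/-- FX-POLAR: if the polar quadratic form of `p ≠ 0` is a product of two linear forms, one of which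
vanishes at `p`, then `{F = 1}` immerses. -/
def PolarImm : Prop := ∀ (n : ℕ) (g f : MvPolynomial (Fin n) ℂ), g.IsHomogeneous 2 →
  f.IsHomogeneous 3 → ∀ (p : (Fin n → ℂ) × ℂ) (L M : ((Fin n → ℂ) × ℂ) →L[ℂ] ℂ), p ≠ 0 →
  M p = 0 → (∀ y : (Fin n → ℂ) × ℂ, fderiv ℂ (cubic g f) y p = L y * M y) → Immerses g f

/-- FX-QF: a degenerate ternary quadratic form (with symmetric matrix `S`) is a product of two
linear forms. -/
def QF : Prop := ∀ S : Matrix (Fin 3) (Fin 3) ℂ, S.IsSymm → S.det = 0 →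
  ∃ l m : Fin 3 → ℂ, ∀ y : Fin 3 → ℂ,
    ∑ i, ∑ j, S i j * y i * y j = (∑ i, l i * y i) * (∑ i, m i * y i)

/-- FX-RES: a monic cubic `w³ + g w + f` (`g`, `f` binary forms of degree `2`, `3`) and a cubic
`h3 w³ + h2 w² + h1 w + h0` (`h2, h1, h0` binary forms of degrees `1, 2, 3`) have a common
zero `(w, x, y)` with `(x, y) ≠ 0`. The forms are given by their coefficients. -/
def RES : Prop := ∀ (g f h2 h1 h0 : ℂ → ℂ → ℂ) (h3 : ℂ),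
  (∃ a b c : ℂ, ∀ x y, g x y = a * x ^ 2 + b * x * y + c * y ^ 2) →
  (∃ a b c d : ℂ, ∀ x y, f x y = a * x ^ 3 + b * x ^ 2 * y + c * x * y ^ 2 + d * y ^ 3) →
  (∃ a b : ℂ, ∀ x y, h2 x y = a * x + b * y) →
  (∃ a b c : ℂ, ∀ x y, h1 x y = a * x ^ 2 + b * x * y + c * y ^ 2) →
  (∃ a b c d : ℂ, ∀ x y, h0 x y = a * x ^ 3 + b * x ^ 2 * y + c * x * y ^ 2 + d * y ^ 3) →
  ∃ w x y : ℂ, (x, y) ≠ (0, 0) ∧ w ^ 3 + g x y * w + f x y = 0 ∧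
    h3 * w ^ 3 + h2 x y * w ^ 2 + h1 x y * w + h0 x y = 0

/-- FX-EX: for `n = 2` there is always a point `p ≠ 0` whose polar conic contains a line
through `p`. -/
def FlexExists : Prop := ∀ g f : MvPolynomial (Fin 2) ℂ, g.IsHomogeneous 2 →
  f.IsHomogeneous 3 → ∃ (p : (Fin 2 → ℂ) × ℂ) (L M : ((Fin 2 → ℂ) × ℂ) →L[ℂ] ℂ), p ≠ 0 ∧
    M p = 0 ∧ ∀ y : (Fin 2 → ℂ) × ℂ, fderiv ℂ (cubic g f) y p = L y * M y

end Pool.Agent.Helper51.Flex
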