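import Mathlib
import Pool.Agent.Helper51.Flex.Goals

set_option autoImplicit false

/-!
# FX-CS: `cosh (2√x)` and `sinh (2√x) / √x` are entire (`MP_f0185d_an`)
-/

namespace Pool.Agent.Helper51.Flex

open Filter Topology

lemma cs_diff (F : ℕ → ℂ → ℂ) (hF : ∀ n, Differentiable ℂ (F n))
    (hb : ∀ n x, ‖F n x‖ ≤ 2 * ((4 * ‖x‖) ^ n / (n.factorial : ℝ))) :
    Differentiable ℂ (fun x => ∑' n, F n x) := by
  intro x
  have hR : (0 : ℝ) < ‖x‖ + 1 := by positivity
  have hs : Summable (fun n : ℕ => 2 * ((4 * (‖x‖ + 1)) ^ n / (n.factorial : ℝ))) :=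
    (Real.summable_pow_div_factorial _).mul_left 2
  have hd : DifferentiableOn ℂ (fun x => ∑' n, F n x) (Metric.ball (0 : ℂ) (‖x‖ + 1)) := by
    refine Complex.differentiableOn_tsum_of_summable_norm hs (fun n => (hF n).differentiableOn)
      Metric.isOpen_ball ?_
    intro n w hw
    have hw' : ‖w‖ ≤ ‖x‖ + 1 := by
      have := mem_ball_zero_iff.1 hw
      exact this.le
    refine (hb n w).trans ?_
    gcongr
  exact hd.differentiableAt (Metric.isOpen_ball.mem_nhds (by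
    rw [mem_ball_zero_iff]; linarith))

/-- FX-CS. -/
theorem cs : CS := by
  have hfac : ∀ n : ℕ, (n.factorial : ℝ) ≤ ((2 * n).factorial : ℝ) := fun n => by
    exact_mod_cast Nat.factorial_le (by omega)
  have hfac' : ∀ n : ℕ, (n.factorial : ℝ) ≤ ((2 * n + 1).factorial : ℝ) := fun n => by
    exact_mod_cast Nat.factorial_le (by omega)
  refine ⟨fun x => ∑' n : ℕ, (4 * x) ^ n / ((2 * n).factorial : ℂ),
    fun x => ∑' n : ℕ, 2 * ((4 * x) ^ n / ((2 * n + 1).factorial : ℂ)), ?_, ?_, ?_, ?_, ?_, ?_⟩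
  · refine cs_diff _ (fun n => by fun_prop) ?_
    intro n x
    have h4 : ‖(4 : ℂ)‖ = 4 := by simp
    rw [norm_div, norm_pow, norm_mul, h4, Complex.norm_natCast]
    have h1 : (4 * ‖x‖) ^ n / ((2 * n).factorial : ℝ) ≤ (4 * ‖x‖) ^ n / (n.factorial : ℝ) := by
      have := hfac n
      have hp : (0 : ℝ) < (n.factorial : ℝ) := by exact_mod_cast n.factorial_pos
      gcongr
    have h2 : 0 ≤ (4 * ‖x‖) ^ n / (n.factorial : ℝ) := by positivity
    linarith
  · refine cs_diff _ (fun n => by fun_prop) ?_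
    intro n x
    have h4 : ‖(4 : ℂ)‖ = 4 := by simp
    have h2 : ‖(2 : ℂ)‖ = 2 := by simp
    rw [norm_mul, norm_div, norm_pow, norm_mul, h4, h2, Complex.norm_natCast]
    have h1 : (4 * ‖x‖) ^ n / ((2 * n + 1).factorial : ℝ) ≤ (4 * ‖x‖) ^ n / (n.factorial : ℝ) := by
      have := hfac' n
      have hp : (0 : ℝ) < (n.factorial : ℝ) := by exact_mod_cast n.factorial_pos
      gcongr
    linarith
  · show ∑' n : ℕ, (4 * (0 : ℂ)) ^ n / ((2 * n).factorial : ℂ) = 1
    rw [tsum_eq_single 0]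
    · simp
    · intro n hn
      simp [hn]
  · show ∑' n : ℕ, 2 * ((4 * (0 : ℂ)) ^ n / ((2 * n + 1).factorial : ℂ)) = 2
    rw [tsum_eq_single 0]
    · simp
    · intro n hn
      simp [hn]
  · intro y
    show ∑' n : ℕ, (4 * y ^ 2) ^ n / ((2 * n).factorial : ℂ) = Complex.cosh (2 * y)
    rw [← (Complex.hasSum_cosh (2 * y)).tsum_eq]
    refine tsum_congr fun n => ?_
    rw [pow_mul, mul_pow 2 y 2]
    norm_num
  · intro y
    show y * ∑' n : ℕ, 2 * ((4 * y ^ 2) ^ n / ((2 * n + 1).factorial : ℂ)) = Complex.sinh (2 * y)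
    rw [← (Complex.hasSum_sinh (2 * y)).tsum_eq, ← tsum_mul_left]
    refine tsum_congr fun n => ?_
    rw [pow_succ (2 * y), pow_mul, mul_pow 2 y 2]
    norm_num
    ring

end Pool.Agent.Helper51.Flex
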