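import Mathlib
import Pool.Agent.Helper51.Flex.Goals
import Pool.Agent.Helper8.Abund.FDerivHolo

set_option autoImplicit false

/-!
# FX-EU: the Euler operator `3 x ∂_x + y ∂_y` is onto the entire functions vanishing at `0`
-/

open Set Metric Filter Topology MeasureTheory

namespace Pool.Agent.Helper51.Flex

open Pool.Agent.Helper24.Cubic

/-- entire functions of several variables: the derivative is entire -/
theorem diff_fderiv {E F : Type} [NormedAddCommGroup E] [NormedSpace ℂ E]
    [FiniteDimensional ℂ E] [NormedAddCommGroup F] [NormedSpace ℂ F] [CompleteSpace F]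
    {f : E → F} (hf : Differentiable ℂ f) : Differentiable ℂ (fderiv ℂ f) := by
  set b := Module.finBasis ℂ E with hb
  have key : fderiv ℂ f = fun w => ∑ i : Fin (Module.finrank ℂ E),
      (LinearMap.toContinuousLinearMap (b.coord i)).smulRight (fderiv ℂ f w (b i)) := by
    ext w v
    simp only [FunLike.coe_sum, Finset.sum_apply,
      ContinuousLinearMap.smulRight_apply, LinearMap.coe_toContinuousLinearMap']
    conv_lhs => rw [← b.sum_repr v]
    rw [map_sum]
    refine Finset.sum_congr rfl fun i _ => ?_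
    rw [map_smul]
    rfl
  rw [key]
  refine Differentiable.fun_sum fun i _ => ?_
  have h1 : Differentiable ℂ (fun w => fderiv ℂ f w (b i)) := by
    rw [← differentiableOn_univ]
    exact Pool.Agent.Helper8.Abund.differentiableOn_fderiv_apply isOpen_univ
      (differentiableOn_univ.2 hf) (b i)
  exact ((ContinuousLinearMap.smulRightL ℂ E F
      (LinearMap.toContinuousLinearMap (b.coord i))).differentiable).comp h1

/-- entire functions of several variables are smooth -/
theorem contDiff_nat {E : Type} [NormedAddCommGroup E] [NormedSpace ℂ E]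
    [FiniteDimensional ℂ E] (n : ℕ) : ∀ {F : Type} [NormedAddCommGroup F] [NormedSpace ℂ F]
    [CompleteSpace F] {f : E → F}, Differentiable ℂ f → ContDiff ℂ n f := by
  induction n with
  | zero => intro F _ _ _ f hf; exact contDiff_zero.2 hf.continuous
  | succ n ih =>
    intro F _ _ _ f hf
    rw [Nat.cast_succ, contDiff_succ_iff_fderiv]
    refine ⟨hf, fun h => ?_, ih (diff_fderiv hf)⟩
    exact absurd h (by simp)

theorem contDiff_one {E : Type} [NormedAddCommGroup E] [NormedSpace ℂ E]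
    [FiniteDimensional ℂ E] {F : Type} [NormedAddCommGroup F] [NormedSpace ℂ F]
    [CompleteSpace F] {f : E → F} (hf : Differentiable ℂ f) : ContDiff ℂ 1 f := by
  simpa using contDiff_nat 1 hf

/-- the `t`-derivative of `R (t³ x, t y)` -/
noncomputable def Gt (R : ℂ × ℂ → ℂ) (p : ℂ × (ℂ × ℂ)) : ℂ :=
  fderiv ℂ R (p.1 ^ 3 * p.2.1, p.1 * p.2.2) (3 * p.1 ^ 2 * p.2.1, p.2.2)

theorem Gt_diff {R : ℂ × ℂ → ℂ} (hR : Differentiable ℂ R) : Differentiable ℂ (Gt R) := by
  have h := diff_fderiv hR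
  unfold Gt
  refine Differentiable.clm_apply (h.comp ?_) ?_
  · fun_prop
  · fun_prop

theorem Gt_hasDerivAt {R : ℂ × ℂ → ℂ} (hR : Differentiable ℂ R) (x y t : ℂ) :
    HasDerivAt (fun t : ℂ => R (t ^ 3 * x, t * y)) (Gt R (t, (x, y))) t := by
  have h1 : HasDerivAt (fun t : ℂ => ((t ^ 3 * x, t * y) : ℂ × ℂ)) (3 * t ^ 2 * x, y) t := by
    have ha : HasDerivAt (fun t : ℂ => t ^ 3 * x) (3 * t ^ 2 * x) t := by
      simpa using (hasDerivAt_pow 3 t).mul_const x
    have hb : HasDerivAt (fun t : ℂ => t * y) y t := by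
      simpa using (hasDerivAt_id t).mul_const y
    exact ha.prodMk hb
  exact (hR (t ^ 3 * x, t * y)).hasFDerivAt.comp_hasDerivAt t h1

/-- `R (t³ x, t y) / t` -/
noncomputable def KE (R : ℂ × ℂ → ℂ) (p : ℂ × (ℂ × ℂ)) : ℂ :=
  ∫ s in (0:ℝ)..1, Gt R ((s:ℂ) * p.1, p.2)

theorem KE_diff {R : ℂ × ℂ → ℂ} (hR : Differentiable ℂ R) : Differentiable ℂ (KE R) := by
  intro p
  have hd : Differentiable ℂ (fun q : ℂ × (ℂ × (ℂ × ℂ)) => Gt R (q.1 * q.2.1, q.2.2)) := by
    refine (Gt_diff hR).comp ?_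
    fun_prop
  exact (param_integral (E := ℂ × (ℂ × ℂ)) (fun q => Gt R (q.1 * q.2.1, q.2.2))
    (contDiff_one hd) p).differentiableAt

theorem KE_mul {R : ℂ × ℂ → ℂ} (hR : Differentiable ℂ R) (h0 : R (0, 0) = 0) (t x y : ℂ) :
    t * KE R (t, (x, y)) = R (t ^ 3 * x, t * y) := by
  have hc : Continuous (Gt R) := (Gt_diff hR).continuous
  unfold KE
  rw [← intervalIntegral.integral_const_mul]
  have h1 : ∀ s ∈ uIcc (0:ℝ) 1, HasDerivAt (fun s : ℝ => R (((s:ℂ) * t) ^ 3 * x, ((s:ℂ) * t) * y))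
      (t * Gt R ((s:ℂ) * t, (x, y))) s := by
    intro s _
    have h2 : HasDerivAt (fun s : ℂ => s * t) t (s:ℂ) := by
      simpa using (hasDerivAt_id (s:ℂ)).mul_const t
    have h3 := (Gt_hasDerivAt hR x y ((s:ℂ) * t)).comp (s:ℂ) h2
    have h4 := h3.comp_ofReal
    rw [mul_comm t]
    exact h4
  have h2 := intervalIntegral.integral_eq_sub_of_hasDerivAt h1
    (Continuous.intervalIntegrable (by fun_prop) _ _)
  simp only at h2 ⊢
  rw [h2]
  simp [h0]

theorem KE_v {R : ℂ × ℂ → ℂ} (hR : Differentiable ℂ R) (h0 : R (0, 0) = 0) (t x y : ℂ)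
    (ht : t ≠ 0) : fderiv ℂ (KE R) (t, (x, y)) (0, (3 * x, y)) = Gt R (t, (x, y)) := by
  have hcurve : HasDerivAt (fun s : ℂ => ((t, (x + s * (3 * x), y + s * y)) :
      ℂ × (ℂ × ℂ))) (0, (3 * x, y)) 0 := by
    have hw : HasDerivAt (fun s : ℂ => x + s * (3 * x)) (3 * x) 0 := by
      simpa using ((hasDerivAt_id (0:ℂ)).mul_const (3 * x)).const_add x
    have ha : HasDerivAt (fun s : ℂ => y + s * y) y 0 := by
      simpa using ((hasDerivAt_id (0:ℂ)).mul_const y).const_add y
    exact (hasDerivAt_const (0:ℂ) t).prodMk (hw.prodMk ha)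
  have h1 : HasDerivAt (fun s : ℂ => KE R (t, (x + s * (3 * x), y + s * y)))
      (fderiv ℂ (KE R) (t, (x, y)) (0, (3 * x, y))) 0 := by
    have hK' : HasFDerivAt (KE R) (fderiv ℂ (KE R) (t, (x, y)))
      ((fun s : ℂ => ((t, (x + s * (3 * x), y + s * y)) : ℂ × (ℂ × ℂ))) 0) := by
      simpa using (KE_diff hR (t, (x, y))).hasFDerivAt
    exact hK'.comp_hasDerivAt 0 hcurve
  have h2 := h1.const_mul t
  have hcurve2 : HasDerivAt (fun s : ℂ => ((t ^ 3 * (x + s * (3 * x)), t * (y + s * y)) :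
      ℂ × ℂ)) (t • (3 * t ^ 2 * x, y)) 0 := by
    have hw : HasDerivAt (fun s : ℂ => t ^ 3 * (x + s * (3 * x))) (t * (3 * t ^ 2 * x)) 0 := by
      have := (((hasDerivAt_id (0:ℂ)).mul_const (3 * x)).const_add x).const_mul (t ^ 3)
      refine this.congr_deriv ?_
      ring
    have ha : HasDerivAt (fun s : ℂ => t * (y + s * y)) (t * y) 0 := by
      have := (((hasDerivAt_id (0:ℂ)).mul_const y).const_add y).const_mul t
      refine this.congr_deriv ?_
      ring
    exact hw.prodMk ha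
  have h3 : HasDerivAt (fun s : ℂ => t * KE R (t, (x + s * (3 * x), y + s * y)))
      (t * Gt R (t, (x, y))) 0 := by
    have e : (fun s : ℂ => t * KE R (t, (x + s * (3 * x), y + s * y))) =
        fun s => R (t ^ 3 * (x + s * (3 * x)), t * (y + s * y)) := by
      funext s; exact KE_mul hR h0 _ _ _
    rw [e]
    have hR' : HasFDerivAt R (fderiv ℂ R (t ^ 3 * x, t * y))
      ((fun s : ℂ => ((t ^ 3 * (x + s * (3 * x)), t * (y + s * y)) : ℂ × ℂ)) 0) := by
      simpa using (hR (t ^ 3 * x, t * y)).hasFDerivAt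
    have h4 := hR'.comp_hasDerivAt 0 hcurve2
    rw [map_smul] at h4
    exact h4
  exact mul_left_cancel₀ ht (h2.unique h3)

/-- **FX-EU** -/
theorem eu : EU := by
  intro R hR h0
  have hKc : ContDiff ℂ 1 (KE R) := contDiff_one (KE_diff hR)
  have hpar := param_integral (E := ℂ × ℂ) (KE R) hKc
  refine ⟨fun x => ∫ t in (0:ℝ)..1, KE R ((t:ℂ), x), fun x => (hpar x).differentiableAt, ?_, ?_⟩
  · have h1 : ∀ t : ℂ, KE R (t, (0, 0)) = 0 := by
      intro t
      unfold KE Gt
      simp
      exact map_zero _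
    simp only [h1, intervalIntegral.integral_zero]
  · intro x y
    rw [(hpar (x, y)).fderiv]
    have hint : IntervalIntegrable (fun t : ℝ => (fderiv ℂ (KE R) ((t:ℂ), (x, y))).comp
        (ContinuousLinearMap.inr ℂ ℂ (ℂ × ℂ))) volume 0 1 := by
      apply Continuous.intervalIntegrable
      have := hKc.continuous_fderiv (by norm_num)
      exact (this.comp (by fun_prop : Continuous fun t : ℝ => (((t:ℂ), (x, y)) :
        ℂ × (ℂ × ℂ)))).clm_comp continuous_const
    rw [ContinuousLinearMap.intervalIntegral_apply hint]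
    have h2 : ∫ t in (0:ℝ)..1, ((fderiv ℂ (KE R) ((t:ℂ), (x, y))).comp
        (ContinuousLinearMap.inr ℂ ℂ (ℂ × ℂ))) (3 * x, y) =
        ∫ t in (0:ℝ)..1, Gt R ((t:ℂ), (x, y)) := by
      apply intervalIntegral.integral_congr_ae
      rw [uIoc_of_le zero_le_one]
      refine Eventually.of_forall fun t ht => ?_
      have ht0 : (t:ℂ) ≠ 0 := by
        have := ht.1.ne'
        exact_mod_cast this
      rw [← KE_v hR h0 t x y ht0]
      rfl
    rw [h2]
    have h3 := KE_mul hR h0 1 x y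
    unfold KE at h3
    simpa using h3

end Pool.Agent.Helper51.Flex
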