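import Pool.Agent.Helper51.Flex.Goals

/-!
# FX-EX: for `n = 2` some polar conic contains a line through its pole (MP_f0185d_an)
-/

set_option autoImplicit false

namespace Pool.Agent.Helper51.Flex

open Pool.Agent.Helper24.Cubic

/-- a binary form in coordinates -/
theorem eval_binary {d : ℕ} {q : MvPolynomial (Fin 2) ℂ} (hq : q.IsHomogeneous d)
    (u : Fin 2 → ℂ) : MvPolynomial.eval u q = ∑ i ∈ Finset.range (d + 1),
      MvPolynomial.coeff (Finsupp.single 0 i + Finsupp.single 1 (d - i)) q *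
        (u 0 ^ i * u 1 ^ (d - i)) := by
  classical
  let φ : ℕ → (Fin 2 →₀ ℕ) := fun i => Finsupp.single 0 i + Finsupp.single 1 (d - i)
  have hinj : ∀ i ∈ Finset.range (d + 1), ∀ j ∈ Finset.range (d + 1), φ i = φ j → i = j := by
    intro i _ j _ h
    have := DFunLike.congr_fun h 0
    simpa [φ] using this
  have hsub : q.support ⊆ (Finset.range (d + 1)).image φ := by
    intro m hm
    have hdeg : m 0 + m 1 = d := by
      have := hq (MvPolynomial.mem_support_iff.mp hm)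
      rw [Finsupp.weight_apply] at this
      rw [Finsupp.sum_fintype _ _ (by simp)] at this
      simpa [Fin.sum_univ_two] using this
    rw [Finset.mem_image]
    refine ⟨m 0, Finset.mem_range.2 (by omega), ?_⟩
    ext i
    fin_cases i
    · simp [φ]
    · simp [φ]
      omega
  rw [MvPolynomial.eval_eq', Finset.sum_subset hsub, Finset.sum_image hinj]
  · refine Finset.sum_congr rfl fun i _ => ?_
    simp [φ, Fin.prod_univ_two]
  · intro m _ hm
    rw [MvPolynomial.notMem_support_iff.1 hm, zero_mul]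

theorem eval_two {g : MvPolynomial (Fin 2) ℂ} (hg : g.IsHomogeneous 2) :
    ∃ a b c : ℂ, ∀ u : Fin 2 → ℂ, MvPolynomial.eval u g =
      a * u 0 ^ 2 + b * u 0 * u 1 + c * u 1 ^ 2 := by
  obtain ⟨k, hk⟩ : ∃ k : ℕ → ℂ, ∀ u : Fin 2 → ℂ, MvPolynomial.eval u g =
      ∑ i ∈ Finset.range (2 + 1), k i * (u 0 ^ i * u 1 ^ (2 - i)) :=
    ⟨fun i => MvPolynomial.coeff (Finsupp.single 0 i + Finsupp.single 1 (2 - i)) g,
      fun u => eval_binary hg u⟩
  refine ⟨k 2, k 1, k 0, fun u => ?_⟩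
  rw [hk u, Finset.sum_range_succ, Finset.sum_range_succ, Finset.sum_range_succ,
    Finset.sum_range_zero]
  simp only [Nat.sub_zero, pow_zero, one_mul, mul_one, zero_add, Nat.sub_self, pow_one,
    show 2 - 1 = 1 from rfl]
  ring

theorem eval_three {f : MvPolynomial (Fin 2) ℂ} (hf : f.IsHomogeneous 3) :
    ∃ a b c d : ℂ, ∀ u : Fin 2 → ℂ, MvPolynomial.eval u f =
      a * u 0 ^ 3 + b * u 0 ^ 2 * u 1 + c * u 0 * u 1 ^ 2 + d * u 1 ^ 3 := by
  obtain ⟨k, hk⟩ : ∃ k : ℕ → ℂ, ∀ u : Fin 2 → ℂ, MvPolynomial.eval u f =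
      ∑ i ∈ Finset.range (3 + 1), k i * (u 0 ^ i * u 1 ^ (3 - i)) :=
    ⟨fun i => MvPolynomial.coeff (Finsupp.single 0 i + Finsupp.single 1 (3 - i)) f,
      fun u => eval_binary hf u⟩
  refine ⟨k 3, k 2, k 1, k 0, fun u => ?_⟩
  rw [hk u, Finset.sum_range_succ, Finset.sum_range_succ, Finset.sum_range_succ,
    Finset.sum_range_succ, Finset.sum_range_zero]
  simp only [Nat.sub_zero, pow_zero, one_mul, mul_one, zero_add, Nat.sub_self, pow_one,
    show 3 - 1 = 2 from rfl, show 3 - 2 = 1 from rfl]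
  ring

/-- the derivative of the cubic form in coordinates -/
theorem fderiv_cubic {g f : MvPolynomial (Fin 2) ℂ} {a b c A B C D : ℂ}
    (hg : ∀ u : Fin 2 → ℂ, MvPolynomial.eval u g = a * u 0 ^ 2 + b * u 0 * u 1 + c * u 1 ^ 2)
    (hf : ∀ u : Fin 2 → ℂ, MvPolynomial.eval u f =
      A * u 0 ^ 3 + B * u 0 ^ 2 * u 1 + C * u 0 * u 1 ^ 2 + D * u 1 ^ 3)
    (p y : (Fin 2 → ℂ) × ℂ) : fderiv ℂ (cubic g f) y p =
      3 * y.2 ^ 2 * p.2 + p.2 * (a * y.1 0 ^ 2 + b * y.1 0 * y.1 1 + c * y.1 1 ^ 2) +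
      y.2 * (2 * a * y.1 0 * p.1 0 + b * (y.1 0 * p.1 1 + p.1 0 * y.1 1) +
        2 * c * y.1 1 * p.1 1) +
      (3 * A * y.1 0 ^ 2 * p.1 0 + B * (2 * y.1 0 * p.1 0 * y.1 1 + y.1 0 ^ 2 * p.1 1) +
        C * (p.1 0 * y.1 1 ^ 2 + 2 * y.1 0 * y.1 1 * p.1 1) + 3 * D * y.1 1 ^ 2 * p.1 1) := by
  have h1 : HasDerivAt (fun s : ℂ => y + s • p) p 0 := by
    simpa using ((hasDerivAt_id (0 : ℂ)).smul_const p).const_add y
  have h2 : HasFDerivAt (cubic g f) (fderiv ℂ (cubic g f) y) ((fun s : ℂ => y + s • p) 0) := by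
    have h0 : (fun s : ℂ => y + s • p) 0 = y := by simp
    rw [h0]
    exact (cubic_differentiable (g := g) (f := f) _).hasFDerivAt
  have h3 := h2.comp_hasDerivAt (0 : ℂ) h1
  refine h3.unique ?_
  have h4 : (cubic g f ∘ fun s : ℂ => y + s • p) = fun s : ℂ =>
      (y.2 + s * p.2) ^ 3 + (y.2 + s * p.2) * (a * (y.1 0 + s * p.1 0) ^ 2 +
        b * (y.1 0 + s * p.1 0) * (y.1 1 + s * p.1 1) + c * (y.1 1 + s * p.1 1) ^ 2) +
      (A * (y.1 0 + s * p.1 0) ^ 3 + B * (y.1 0 + s * p.1 0) ^ 2 * (y.1 1 + s * p.1 1) +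
        C * (y.1 0 + s * p.1 0) * (y.1 1 + s * p.1 1) ^ 2 + D * (y.1 1 + s * p.1 1) ^ 3) := by
    funext s
    simp only [Function.comp_apply, cubic, hg, hf, Prod.fst_add, Prod.snd_add, Prod.smul_fst,
      Prod.smul_snd, Pi.add_apply, Pi.smul_apply, smul_eq_mul]
  rw [h4]
  have k2 : HasDerivAt (fun s : ℂ => y.2 + s * p.2) p.2 0 := by
    simpa using ((hasDerivAt_id (0 : ℂ)).mul_const p.2).const_add y.2
  have k0 : HasDerivAt (fun s : ℂ => y.1 0 + s * p.1 0) (p.1 0) 0 := by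
    simpa using ((hasDerivAt_id (0 : ℂ)).mul_const (p.1 0)).const_add (y.1 0)
  have k1 : HasDerivAt (fun s : ℂ => y.1 1 + s * p.1 1) (p.1 1) 0 := by
    simpa using ((hasDerivAt_id (0 : ℂ)).mul_const (p.1 1)).const_add (y.1 1)
  have k := ((k2.pow 3).add (k2.mul ((((k0.pow 2).const_mul a).add
    ((k0.const_mul b).mul k1)).add ((k1.pow 2).const_mul c)))).add
    (((((k0.pow 3).const_mul A).add (((k0.pow 2).const_mul B).mul k1)).add
      ((k0.const_mul C).mul (k1.pow 2))).add ((k1.pow 3).const_mul D))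
  refine k.congr_deriv ?_
  simp
  ring

/-- a linear form given by three coefficients -/
noncomputable def lin (l : Fin 3 → ℂ) : ((Fin 2 → ℂ) × ℂ) →L[ℂ] ℂ :=
  l 0 • ContinuousLinearMap.snd ℂ (Fin 2 → ℂ) ℂ +
    l 1 • (ContinuousLinearMap.proj (R := ℂ) (φ := fun _ : Fin 2 => ℂ) 0).comp
      (ContinuousLinearMap.fst ℂ (Fin 2 → ℂ) ℂ) +
    l 2 • (ContinuousLinearMap.proj (R := ℂ) (φ := fun _ : Fin 2 => ℂ) 1).comp
      (ContinuousLinearMap.fst ℂ (Fin 2 → ℂ) ℂ)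

theorem lin_apply (l : Fin 3 → ℂ) (y : (Fin 2 → ℂ) × ℂ) :
    lin l y = l 0 * y.2 + l 1 * y.1 0 + l 2 * y.1 1 := by
  simp [lin]

theorem flexExists_of (hQ : QF) (hR : RES) : FlexExists := by
  intro g f hg hf
  obtain ⟨a, b, c, hg'⟩ := eval_two hg
  obtain ⟨A, B, C, D, hf'⟩ := eval_three hf
  obtain ⟨w0, x0, y0, hne, hF, hdet⟩ := hR
    (fun x y => a * x ^ 2 + b * x * y + c * y ^ 2)
    (fun x y => A * x ^ 3 + B * x ^ 2 * y + C * x * y ^ 2 + D * y ^ 3)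
    (fun x y => (3 * (a * C + 3 * c * A - b * B)) * x + (3 * (3 * a * D + c * B - b * C)) * y)
    (fun x y => (9 * A * C - 3 * B ^ 2 - a ^ 2 * c + a * b ^ 2 / 4) * x ^ 2 +
      (27 * A * D - 3 * B * C + b ^ 3 / 4 - a * b * c) * x * y +
      (9 * B * D - 3 * C ^ 2 + b ^ 2 * c / 4 - a * c ^ 2) * y ^ 2)
    (fun x y => (-a ^ 2 * C + a * b * B - 3 / 4 * b ^ 2 * A) * x ^ 3 +
      (-3 * a ^ 2 * D + 2 * a * c * B + b ^ 2 * B / 4 - 3 * b * c * A) * x ^ 2 * y +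
      (b ^ 2 * C / 4 - 3 * a * b * D + 2 * a * c * C - 3 * c ^ 2 * A) * x * y ^ 2 +
      (-(3 / 4) * b ^ 2 * D + b * c * C - c ^ 2 * B) * y ^ 3)
    (3 * (a * c - b ^ 2 / 4)) ⟨_, _, _, fun x y => rfl⟩ ⟨_, _, _, _, fun x y => rfl⟩
    ⟨_, _, fun x y => rfl⟩ ⟨_, _, _, fun x y => rfl⟩ ⟨_, _, _, _, fun x y => rfl⟩
  let S : Matrix (Fin 3) (Fin 3) ℂ :=
    !![3 * w0, a * x0 + b * y0 / 2, b * x0 / 2 + c * y0;
      a * x0 + b * y0 / 2, a * w0 + 3 * A * x0 + B * y0, b * w0 / 2 + B * x0 + C * y0;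
      b * x0 / 2 + c * y0, b * w0 / 2 + B * x0 + C * y0, c * w0 + C * x0 + 3 * D * y0]
  have hS : S.IsSymm := by
    ext i j
    fin_cases i <;> fin_cases j <;> rfl
  have s00 : S 0 0 = 3 * w0 := rfl
  have s01 : S 0 1 = a * x0 + b * y0 / 2 := rfl
  have s02 : S 0 2 = b * x0 / 2 + c * y0 := rfl
  have s10 : S 1 0 = a * x0 + b * y0 / 2 := rfl
  have s11 : S 1 1 = a * w0 + 3 * A * x0 + B * y0 := rfl
  have s12 : S 1 2 = b * w0 / 2 + B * x0 + C * y0 := rfl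
  have s20 : S 2 0 = b * x0 / 2 + c * y0 := rfl
  have s21 : S 2 1 = b * w0 / 2 + B * x0 + C * y0 := rfl
  have s22 : S 2 2 = c * w0 + C * x0 + 3 * D * y0 := rfl
  have hSd : S.det = 0 := by
    rw [Matrix.det_fin_three, s00, s01, s02, s10, s11, s12, s20, s21, s22]
    linear_combination hdet
  obtain ⟨l, m, hlm⟩ := hQ S hS hSd
  let p : (Fin 2 → ℂ) × ℂ := (![x0, y0], w0)
  have hp : p ≠ 0 := by
    intro h
    apply hne
    have h1 : p.1 = 0 := by rw [h]; rfl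
    have h2 := congrFun h1 0
    have h3 := congrFun h1 1
    simp only [p, Matrix.cons_val_zero, Matrix.cons_val_one, Pi.zero_apply] at h2 h3
    rw [h2, h3]
  have key : ∀ y : (Fin 2 → ℂ) × ℂ, fderiv ℂ (cubic g f) y p = lin l y * lin m y := by
    intro y
    have h := hlm ![y.2, y.1 0, y.1 1]
    have v0 : (![y.2, y.1 0, y.1 1] : Fin 3 → ℂ) 0 = y.2 := rfl
    have v1 : (![y.2, y.1 0, y.1 1] : Fin 3 → ℂ) 1 = y.1 0 := rfl
    have v2 : (![y.2, y.1 0, y.1 1] : Fin 3 → ℂ) 2 = y.1 1 := rfl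
    simp only [Fin.sum_univ_three, v0, v1, v2, s00, s01, s02, s10, s11, s12, s20, s21, s22] at h
    rw [fderiv_cubic hg' hf' p y, lin_apply, lin_apply]
    simp only [p, Matrix.cons_val_zero, Matrix.cons_val_one]
    linear_combination h
  have hself : lin l p * lin m p = 0 := by
    rw [← key p, fderiv_cubic hg' hf' p p]
    simp only [p, Matrix.cons_val_zero, Matrix.cons_val_one]
    linear_combination 3 * hF
  rcases mul_eq_zero.1 hself with h | h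
  · exact ⟨p, lin m, lin l, hp, h, fun y => by rw [key y, mul_comm]⟩
  · exact ⟨p, lin l, lin m, hp, h, key⟩

end Pool.Agent.Helper51.Flex
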