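import Pool.Agent.Helper51.Flex.Goals

set_option autoImplicit false

/-!
# FX-POLAR (`MP_f0185d_an`)
-/

namespace Pool.Agent.Helper51.Flex

open Pool.Agent.Helper24.Cubic

lemma polar_line {n : ℕ} {g f : MvPolynomial (Fin n) ℂ} (hg : g.IsHomogeneous 2)
    (hf : f.IsHomogeneous 3) {p : (Fin n → ℂ) × ℂ} {L M : ((Fin n → ℂ) × ℂ) →L[ℂ] ℂ}
    (hM : M p = 0) (hd : ∀ y : (Fin n → ℂ) × ℂ, fderiv ℂ (cubic g f) y p = L y * M y)
    (y : (Fin n → ℂ) × ℂ) (t : ℂ) :
    cubic g f (t • p + y) = cubic g f y + (t * L y + t ^ 2 / 2 * L p) * M y := by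
  obtain ⟨c0, c1, c2, c3, hc⟩ := cubic_line hg hf p y
  have hder : ∀ t : ℂ, c1 + 2 * c2 * t + 3 * c3 * t ^ 2 = (t * L p + L y) * M y := by
    intro t
    have h1 : HasDerivAt (fun s : ℂ => s • p + y) p t := by
      simpa using ((hasDerivAt_id t).smul_const p).add_const y
    have h2 : HasFDerivAt (cubic g f) (fderiv ℂ (cubic g f) (t • p + y))
        ((fun s : ℂ => s • p + y) t) :=
      (cubic_differentiable (g := g) (f := f) _).hasFDerivAt
    have h3 := h2.comp_hasDerivAt t h1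
    have h4 : (cubic g f ∘ fun s : ℂ => s • p + y) =
        fun s : ℂ => c0 + c1 * s + c2 * s ^ 2 + c3 * s ^ 3 := by
      funext s; exact hc s
    rw [h4, hd] at h3
    have h5 : HasDerivAt (fun s : ℂ => c0 + c1 * s + c2 * s ^ 2 + c3 * s ^ 3)
        (c1 + 2 * c2 * t + 3 * c3 * t ^ 2) t := by
      have := ((((hasDerivAt_id t).const_mul c1).const_add c0).add
        ((hasDerivAt_pow 2 t).const_mul c2)).add ((hasDerivAt_pow 3 t).const_mul c3)
      refine this.congr_deriv ?_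
      simp
      ring
    have h6 := h5.unique h3
    rw [h6]
    simp only [map_add, map_smul, smul_eq_mul, hM, mul_zero, zero_add]
  have e0 := hder 0
  have e1 := hder 1
  have e2 := hder (-1)
  have e3 : cubic g f y = c0 := by
    have := hc 0
    simpa using this
  rw [hc t, e3]
  have f1 : c1 = L y * M y := by linear_combination e0
  have f3 : c3 = 0 := by linear_combination (1 / 6) * e1 + (1 / 6) * e2 - (1 / 3) * f1
  have f2 : c2 = L p * M y / 2 := by linear_combination (1 / 4) * e1 - (1 / 4) * e2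
  rw [f1, f2, f3]
  ring

/-- a splitting of `ℂ^{n+1}` along a nonzero vector, with a given functional -/
lemma exists_split' {n : ℕ} {p : (Fin n → ℂ) × ℂ} (ℓ : ((Fin n → ℂ) × ℂ) →L[ℂ] ℂ)
    (hℓ : ℓ p = 1) :
    ∃ (T : ((Fin n → ℂ) × ℂ) →L[ℂ] (Fin n → ℂ))
      (S : (Fin n → ℂ) →L[ℂ] ((Fin n → ℂ) × ℂ)), (∀ x, x = ℓ x • p + S (T x)) ∧
        ∀ u, ℓ (S u) = 0 := by
  have hsurj : Function.Surjective (ℓ : ((Fin n → ℂ) × ℂ) →ₗ[ℂ] ℂ) := by
    intro c
    exact ⟨c • p, by simp [hℓ]⟩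
  have hfin : Module.finrank ℂ (LinearMap.ker (ℓ : ((Fin n → ℂ) × ℂ) →ₗ[ℂ] ℂ)) =
      Module.finrank ℂ (Fin n → ℂ) := by
    have h1 := LinearMap.finrank_range_add_finrank_ker (ℓ : ((Fin n → ℂ) × ℂ) →ₗ[ℂ] ℂ)
    rw [LinearMap.range_eq_top.mpr hsurj, finrank_top] at h1
    simp at h1 ⊢
    omega
  let e : LinearMap.ker (ℓ : ((Fin n → ℂ) × ℂ) →ₗ[ℂ] ℂ) ≃ₗ[ℂ] (Fin n → ℂ) :=
    LinearEquiv.ofFinrankEq _ _ hfin
  let π : ((Fin n → ℂ) × ℂ) →ₗ[ℂ] LinearMap.ker (ℓ : ((Fin n → ℂ) × ℂ) →ₗ[ℂ] ℂ) :=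
    LinearMap.codRestrict _ (LinearMap.id - (ℓ : ((Fin n → ℂ) × ℂ) →ₗ[ℂ] ℂ).smulRight p) (by
      intro x
      simp [hℓ])
  refine ⟨LinearMap.toContinuousLinearMap (e.toLinearMap ∘ₗ π),
    LinearMap.toContinuousLinearMap ((LinearMap.ker _).subtype ∘ₗ e.symm.toLinearMap), ?_, ?_⟩
  · intro x
    have hπ : ((π x : LinearMap.ker (ℓ : ((Fin n → ℂ) × ℂ) →ₗ[ℂ] ℂ)) : (Fin n → ℂ) × ℂ) =
        x - ℓ x • p := rfl
    simp only [LinearMap.coe_toContinuousLinearMap', LinearMap.comp_apply,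
      LinearEquiv.coe_coe, LinearEquiv.symm_apply_apply, Submodule.subtype_apply, hπ]
    abel
  · intro u
    have h1 : (e.symm u : (Fin n → ℂ) × ℂ) ∈
        LinearMap.ker (ℓ : ((Fin n → ℂ) × ℂ) →ₗ[ℂ] ℂ) := (e.symm u).2
    exact LinearMap.mem_ker.1 h1

/-- **FX-POLAR** -/
theorem polarImm_of (h : FlexCore) : PolarImm := by
  intro n g f hg hf p L M hp hM hd
  have hline := polar_line hg hf hM hd
  have hcd : Differentiable ℂ (cubic g f) := cubic_differentiable
  by_cases hLp : L p = 0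
  · apply singular_cubic_immersion n g f hg hf p hp
    refine ContinuousLinearMap.ext fun y => ?_
    have hpp : cubic g f p = 0 := by
      have h1 := euler cubic_differentiable (cubic_smul hg hf) p
      rw [hd, hLp, zero_mul] at h1
      have h2 : ((3 : ℕ) : ℂ) ≠ 0 := by norm_num
      exact (mul_eq_zero.1 h1.symm).resolve_left h2
    have hs : ∀ s : ℂ, cubic g f (p + s • y) = s ^ 3 * cubic g f y + s ^ 2 * (L y * M y) := by
      intro s
      by_cases hs0 : s = 0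
      · subst hs0
        simp [hpp]
      · have : p + s • y = s • (s⁻¹ • p + y) := by
          rw [smul_add, smul_smul, mul_inv_cancel₀ hs0, one_smul]
        rw [this, cubic_smul hg hf, hline, hLp]
        field_simp
        ring
    have h1 : HasDerivAt (fun s : ℂ => p + s • y) y 0 := by
      simpa using ((hasDerivAt_id (0:ℂ)).smul_const y).const_add p
    have h2 : HasFDerivAt (cubic g f) (fderiv ℂ (cubic g f) p) ((fun s : ℂ => p + s • y) 0) := by
      simpa using (cubic_differentiable (g := g) (f := f) p).hasFDerivAt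
    have h3 := h2.comp_hasDerivAt (0:ℂ) h1
    have h4 : (cubic g f ∘ fun s : ℂ => p + s • y) =
        fun s : ℂ => s ^ 3 * cubic g f y + s ^ 2 * (L y * M y) := by
      funext s; exact hs s
    rw [h4] at h3
    have h5 : HasDerivAt (fun s : ℂ => s ^ 3 * cubic g f y + s ^ 2 * (L y * M y)) 0 0 := by
      have := ((hasDerivAt_pow 3 (0:ℂ)).mul_const (cubic g f y)).add
        ((hasDerivAt_pow 2 (0:ℂ)).mul_const (L y * M y))
      refine this.congr_deriv ?_
      simp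
    exact h3.unique h5
  · set ℓ : ((Fin n → ℂ) × ℂ) →L[ℂ] ℂ := (L p)⁻¹ • L with hℓ
    have hℓx : ∀ x, ℓ x = (L p)⁻¹ * L x := fun x => rfl
    have hℓp : ℓ p = 1 := by rw [hℓx, inv_mul_cancel₀ hLp]
    obtain ⟨T, S, hsplit, hS⟩ := exists_split' ℓ hℓp
    have hLS : ∀ u, L (S u) = 0 := by
      intro u
      have h1 := hS u
      rw [hℓx] at h1
      exact (mul_eq_zero.1 h1).resolve_left (inv_ne_zero hLp)
    set L' : (Fin n → ℂ) →L[ℂ] ℂ := (L p / 2) • (M.comp S) with hL'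
    have hL'u : ∀ u, L' u = L p / 2 * M (S u) := fun u => rfl
    set f₀ : (Fin n → ℂ) → ℂ := fun u => cubic g f (S u) with hf₀
    have hf₀d : Differentiable ℂ f₀ := hcd.comp S.differentiable
    obtain ⟨Φ, hΦ, hinj⟩ := h n L' f₀ hf₀d
      (fun t u => by
        simp only [hf₀]
        rw [map_smul]
        exact cubic_smul hg hf t (S u))
    have hA : Differentiable ℂ (fun x : (Fin n → ℂ) × ℂ => ((T x, ℓ x) : (Fin n → ℂ) × ℂ)) := by
      fun_prop
    have hcore : cubic g f = (fun q : (Fin n → ℂ) × ℂ => q.2 ^ 2 * L' q.1 + f₀ q.1) ∘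
        (fun x : (Fin n → ℂ) × ℂ => ((T x, ℓ x) : (Fin n → ℂ) × ℂ)) := by
      funext x
      simp only [Function.comp_apply, hf₀]
      conv_lhs => rw [hsplit x]
      rw [hline (S (T x)) (ℓ x), hLS, hL'u]
      ring
    have hder : ∀ x v : (Fin n → ℂ) × ℂ, fderiv ℂ (fun x : (Fin n → ℂ) × ℂ =>
        ((T x, ℓ x) : (Fin n → ℂ) × ℂ)) x v = (T v, ℓ v) := by
      intro x v
      have : HasFDerivAt (fun x : (Fin n → ℂ) × ℂ => ((T x, ℓ x) : (Fin n → ℂ) × ℂ))
          (T.prod ℓ) x := (T.prod ℓ).hasFDerivAt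
      rw [this.fderiv]; rfl
    have hcored : Differentiable ℂ (fun q : (Fin n → ℂ) × ℂ => q.2 ^ 2 * L' q.1 + f₀ q.1) := by
      have h1 : Differentiable ℂ (fun q : (Fin n → ℂ) × ℂ => L' q.1) :=
        L'.differentiable.comp differentiable_fst
      have h2 : Differentiable ℂ (fun q : (Fin n → ℂ) × ℂ => f₀ q.1) :=
        hf₀d.comp differentiable_fst
      fun_prop
    refine ⟨fun x => Φ (T x, ℓ x), hΦ.comp hA, ?_⟩
    intro z hz v htan hker
    have h1 : ℓ z ^ 2 * L' (T z) + f₀ (T z) = 1 := by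
      rw [hcore] at hz
      exact hz
    have h2 : fderiv ℂ (fun q : (Fin n → ℂ) × ℂ => q.2 ^ 2 * L' q.1 + f₀ q.1) (T z, ℓ z)
        (T v, ℓ v) = 0 := by
      rw [hcore, fderiv_comp z (hcored _) (hA z)] at htan
      rw [ContinuousLinearMap.comp_apply, hder] at htan
      exact htan
    have h3 : fderiv ℂ Φ (T z, ℓ z) (T v, ℓ v) = 0 := by
      have h4 : (fun x => Φ (T x, ℓ x)) = Φ ∘ (fun x : (Fin n → ℂ) × ℂ =>
        ((T x, ℓ x) : (Fin n → ℂ) × ℂ)) := rfl
      rw [h4, fderiv_comp z (hΦ _) (hA z), ContinuousLinearMap.comp_apply, hder] at hker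
      exact hker
    have h5 := hinj (T z, ℓ z) h1 (T v, ℓ v) h2 h3
    have h6 : T v = 0 := congrArg Prod.fst h5
    have h7 : ℓ v = 0 := congrArg Prod.snd h5
    rw [hsplit v, h6, h7]
    simp

end Pool.Agent.Helper51.Flex
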