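import Pool.Agent.Helper51.Flex.Goals

/-!
# FX-QF: a degenerate ternary quadratic form is a product of two linear forms
-/

namespace Pool.Agent.Helper51.Flex

namespace QFaux

theorem binary (A B C : ℂ) : ∃ p q r s : ℂ, ∀ X Y : ℂ,
    A * X ^ 2 + 2 * B * X * Y + C * Y ^ 2 = (p * X + q * Y) * (r * X + s * Y) := by
  by_cases hA : A = 0
  · exact ⟨0, 1, 2 * B, C, fun X Y => by rw [hA]; ring⟩
  · obtain ⟨w, hw⟩ := IsAlgClosed.exists_pow_nat_eq (B ^ 2 - A * C) (n := 2) (by norm_num)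
    refine ⟨A, B - w, 1, (B + w) / A, fun X Y => ?_⟩
    have h : (A * X + (B - w) * Y) * (1 * X + (B + w) / A * Y) =
        A * X ^ 2 + 2 * B * X * Y + (B ^ 2 - w ^ 2) / A * Y ^ 2 := by
      field_simp
      ring
    rw [h, hw]
    have h2 : (B ^ 2 - (B ^ 2 - A * C)) / A = C := by field_simp; ring
    rw [h2]

theorem key (a b c d e f v0 v1 v2 : ℂ) (h0 : a * v0 + b * v1 + c * v2 = 0)
    (h1 : b * v0 + d * v1 + e * v2 = 0) (h2 : c * v0 + e * v1 + f * v2 = 0) (hv : v2 ≠ 0) :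
    ∃ l0 l1 l2 m0 m1 m2 : ℂ, ∀ x y z : ℂ,
      a * x ^ 2 + d * y ^ 2 + f * z ^ 2 + 2 * b * x * y + 2 * c * x * z + 2 * e * y * z =
        (l0 * x + l1 * y + l2 * z) * (m0 * x + m1 * y + m2 * z) := by
  obtain ⟨u0, hu0⟩ : ∃ u0, v0 = u0 * v2 := ⟨v0 / v2, by field_simp⟩
  obtain ⟨u1, hu1⟩ : ∃ u1, v1 = u1 * v2 := ⟨v1 / v2, by field_simp⟩
  have hc : c = -(a * u0 + b * u1) := by
    apply mul_right_cancel₀ hv
    rw [hu0, hu1] at h0
    linear_combination h0
  have he : e = -(b * u0 + d * u1) := by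
    apply mul_right_cancel₀ hv
    rw [hu0, hu1] at h1
    linear_combination h1
  have hf : f = -(c * u0 + e * u1) := by
    apply mul_right_cancel₀ hv
    rw [hu0, hu1] at h2
    linear_combination h2
  obtain ⟨p, q, r, s, h⟩ := binary a b d
  refine ⟨p, q, -(p * u0 + q * u1), r, s, -(r * u0 + s * u1), fun x y z => ?_⟩
  have h3 := h (x - u0 * z) (y - u1 * z)
  have h4 : (p * x + q * y + -(p * u0 + q * u1) * z) * (r * x + s * y + -(r * u0 + s * u1) * z) =
      (p * (x - u0 * z) + q * (y - u1 * z)) * (r * (x - u0 * z) + s * (y - u1 * z)) := by ring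
  rw [h4, ← h3, hf, hc, he]
  ring

theorem key3 (a b c d e f v0 v1 v2 : ℂ) (h0 : a * v0 + b * v1 + c * v2 = 0)
    (h1 : b * v0 + d * v1 + e * v2 = 0) (h2 : c * v0 + e * v1 + f * v2 = 0)
    (hv : v0 ≠ 0 ∨ v1 ≠ 0 ∨ v2 ≠ 0) :
    ∃ l0 l1 l2 m0 m1 m2 : ℂ, ∀ x y z : ℂ,
      a * x ^ 2 + d * y ^ 2 + f * z ^ 2 + 2 * b * x * y + 2 * c * x * z + 2 * e * y * z =
        (l0 * x + l1 * y + l2 * z) * (m0 * x + m1 * y + m2 * z) := by
  rcases hv with hv | hv | hv
  · obtain ⟨l0, l1, l2, m0, m1, m2, h⟩ := key f e c d b a v2 v1 v0 (by linear_combination h2)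
      (by linear_combination h1) (by linear_combination h0) hv
    exact ⟨l2, l1, l0, m2, m1, m0, fun x y z => by linear_combination h z y x⟩
  · obtain ⟨l0, l1, l2, m0, m1, m2, h⟩ := key a c b f e d v0 v2 v1 (by linear_combination h0)
      (by linear_combination h2) (by linear_combination h1) hv
    exact ⟨l0, l2, l1, m0, m2, m1, fun x y z => by linear_combination h x z y⟩
  · exact key a b c d e f v0 v1 v2 h0 h1 h2 hv

end QFaux

theorem qf : QF := by
  intro S hS hdet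
  obtain ⟨v, hv0, hv⟩ := Matrix.exists_mulVec_eq_zero_iff.2 hdet
  have s10 : S 1 0 = S 0 1 := by rw [← hS.apply]
  have s20 : S 2 0 = S 0 2 := by rw [← hS.apply]
  have s21 : S 2 1 = S 1 2 := by rw [← hS.apply]
  have e0 := congrFun hv 0
  have e1 := congrFun hv 1
  have e2 := congrFun hv 2
  simp only [Matrix.mulVec, dotProduct, Fin.sum_univ_three, Pi.zero_apply] at e0 e1 e2
  rw [s10] at e1
  rw [s20, s21] at e2
  have hne : v 0 ≠ 0 ∨ v 1 ≠ 0 ∨ v 2 ≠ 0 := by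
    by_contra hcon
    push Not at hcon
    apply hv0
    funext i
    fin_cases i
    · exact hcon.1
    · exact hcon.2.1
    · exact hcon.2.2
  obtain ⟨l0, l1, l2, m0, m1, m2, h⟩ := QFaux.key3 (S 0 0) (S 0 1) (S 0 2) (S 1 1) (S 1 2) (S 2 2)
    (v 0) (v 1) (v 2) e0 e1 e2 hne
  refine ⟨![l0, l1, l2], ![m0, m1, m2], fun y => ?_⟩
  simp only [Fin.sum_univ_three, Matrix.cons_val_zero, Matrix.cons_val_one, Matrix.cons_val]
  rw [s10, s20, s21]
  linear_combination h (y 0) (y 1) (y 2)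

end Pool.Agent.Helper51.Flex
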