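import Pool.Agent.Helper51.Flex.Goals

/-!
# FX-RES: a common zero of two ternary cubics (MP_f0185d_an)
-/

set_option autoImplicit false
set_option linter.unusedVariables false

namespace Pool.Agent.Helper51.Flex

open Polynomial

/-- the norm of `r2 w^2 + r1 w + r0` modulo `w^3 + g w + f` -/
def Nf {R : Type*} [CommRing R] (g f r2 r1 r0 : R) : R :=
  r0 * ((r0 - g * r2) * (r0 - g * r2) - r1 * (-f * r2 - g * r1)) -
    r1 * ((-f * r2) * (r0 - g * r2) - r1 * (-f * r1)) +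
    r2 * ((-f * r2) * (-f * r2 - g * r1) - (r0 - g * r2) * (-f * r1))

theorem exists_factor (g f : ℂ) : ∃ w1 w2 w3 : ℂ, w1 + w2 + w3 = 0 ∧
    w1 * w2 + w1 * w3 + w2 * w3 = g ∧ w1 * w2 * w3 = -f := by
  obtain ⟨w1, hw1⟩ := IsAlgClosed.exists_root (X ^ 3 + C g * X + C f : ℂ[X]) (by
    have : (X ^ 3 + C g * X + C f : ℂ[X]).degree = 3 := by
      compute_degree!
    rw [this]
    norm_num)
  have h1 : w1 ^ 3 + g * w1 + f = 0 := by
    simpa [IsRoot] using hw1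
  obtain ⟨s, hs⟩ := IsAlgClosed.exists_pow_nat_eq (w1 ^ 2 - 4 * (w1 ^ 2 + g)) (n := 2) (by norm_num)
  refine ⟨w1, (-w1 + s) / 2, (-w1 - s) / 2, by ring, ?_, ?_⟩
  · linear_combination -hs / 4
  · linear_combination -w1 * hs / 4 + h1

theorem Nf_prod (w1 w2 w3 g f r2 r1 r0 : ℂ) (h1 : w1 + w2 + w3 = 0)
    (h2 : w1 * w2 + w1 * w3 + w2 * w3 = g) (h3 : w1 * w2 * w3 = -f) :
    Nf g f r2 r1 r0 = (r2 * w1 ^ 2 + r1 * w1 + r0) * (r2 * w2 ^ 2 + r1 * w2 + r0) *
      (r2 * w3 ^ 2 + r1 * w3 + r0) := by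
  have hf : f = -(w1 * w2 * w3) := by rw [h3]; ring
  have hw3 : w3 = -w1 - w2 := by linear_combination h1
  subst hf
  subst h2
  subst hw3
  unfold Nf
  ring

theorem common_root (g f r2 r1 r0 : ℂ) (h : Nf g f r2 r1 r0 = 0) :
    ∃ w : ℂ, w ^ 3 + g * w + f = 0 ∧ r2 * w ^ 2 + r1 * w + r0 = 0 := by
  obtain ⟨w1, w2, w3, h1, h2, h3⟩ := exists_factor g f
  rw [Nf_prod w1 w2 w3 g f r2 r1 r0 h1 h2 h3] at h
  have hroot : ∀ w : ℂ, w ^ 3 + g * w + f = (w - w1) * (w - w2) * (w - w3) := by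
    intro w
    linear_combination w ^ 2 * h1 - w * h2 + h3
  rcases mul_eq_zero.1 h with h | h
  · rcases mul_eq_zero.1 h with h | h
    · exact ⟨w1, by rw [hroot]; ring, h⟩
    · exact ⟨w2, by rw [hroot]; ring, h⟩
  · exact ⟨w3, by rw [hroot]; ring, h⟩

theorem res : RES := by
  intro g f h2 h1 h0 h3 hg hf hh2 hh1 hh0
  obtain ⟨g1, g2, g3, hg⟩ := hg
  obtain ⟨f1, f2, f3, f4, hf⟩ := hf
  obtain ⟨a1, a2, ha⟩ := hh2
  obtain ⟨b1, b2, b3, hb⟩ := hh1
  obtain ⟨c1, c2, c3, c4, hc⟩ := hh0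
  -- the norm
  set N : ℂ → ℂ → ℂ := fun x y =>
    Nf (g x y) (f x y) (h2 x y) (h1 x y - h3 * g x y) (h0 x y - h3 * f x y) with hN
  have key : ∀ x y : ℂ, N x y = 0 → ∃ w : ℂ, w ^ 3 + g x y * w + f x y = 0 ∧
      h3 * w ^ 3 + h2 x y * w ^ 2 + h1 x y * w + h0 x y = 0 := by
    intro x y hxy
    obtain ⟨w, hw1, hw2⟩ := common_root _ _ _ _ _ hxy
    exact ⟨w, hw1, by linear_combination hw2 + h3 * hw1⟩
  have hom : ∀ t x y : ℂ, N (t * x) (t * y) = t ^ 9 * N x y := by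
    intro t x y
    have e1 : g (t * x) (t * y) = t ^ 2 * g x y := by rw [hg, hg]; ring
    have e2 : f (t * x) (t * y) = t ^ 3 * f x y := by rw [hf, hf]; ring
    have e3 : h2 (t * x) (t * y) = t * h2 x y := by rw [ha, ha]; ring
    have e4 : h1 (t * x) (t * y) = t ^ 2 * h1 x y := by rw [hb, hb]; ring
    have e5 : h0 (t * x) (t * y) = t ^ 3 * h0 x y := by rw [hc, hc]; ring
    simp only [hN]
    rw [e1, e2, e3, e4, e5]
    unfold Nf
    ring
  -- the polynomial N(1, y)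
  let G : ℂ[X] := C g1 + C g2 * X + C g3 * X ^ 2
  let F : ℂ[X] := C f1 + C f2 * X + C f3 * X ^ 2 + C f4 * X ^ 3
  let H2 : ℂ[X] := C a1 + C a2 * X
  let H1 : ℂ[X] := C b1 + C b2 * X + C b3 * X ^ 2
  let H0 : ℂ[X] := C c1 + C c2 * X + C c3 * X ^ 2 + C c4 * X ^ 3
  let P : ℂ[X] := Nf G F H2 (H1 - C h3 * G) (H0 - C h3 * F)
  have hP : ∀ y : ℂ, P.eval y = N 1 y := by
    intro y
    have e1 : G.eval y = g 1 y := by rw [hg]; simp [G]
    have e2 : F.eval y = f 1 y := by rw [hf]; simp [F]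
    have e3 : H2.eval y = h2 1 y := by rw [ha]; simp [H2]
    have e4 : H1.eval y = h1 1 y := by rw [hb]; simp [H1]
    have e5 : H0.eval y = h0 1 y := by rw [hc]; simp [H0]
    simp only [hN, P, Nf, eval_add, eval_sub, eval_mul, eval_neg, eval_C, e1, e2, e3, e4, e5]
  by_cases hdeg : P.degree = 0
  · -- constant
    have hconst := eq_C_of_degree_eq_zero hdeg
    set c := P.coeff 0 with hcdef
    have hN1 : ∀ y : ℂ, N 1 y = c := by
      intro y
      rw [← hP, hconst, eval_C]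
    have hNx : ∀ x : ℂ, x ≠ 0 → N x 1 = c * x ^ 9 := by
      intro x hx
      have h4 := hom x 1 (1 / x)
      rw [mul_one, mul_one_div_cancel hx, hN1] at h4
      rw [h4]
      ring
    have hcont : Continuous (fun x : ℂ => N x 1) := by
      simp only [hN, Nf, hg, hf, ha, hb, hc]
      fun_prop
    have hcont2 : Continuous (fun x : ℂ => c * x ^ 9) := by fun_prop
    have heq : (fun x : ℂ => N x 1) = fun x : ℂ => c * x ^ 9 := by
      apply Continuous.ext_on (dense_compl_singleton (0 : ℂ)) hcont hcont2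
      intro x hx
      exact hNx x hx
    have h01 : N 0 1 = 0 := by
      have := congrFun heq 0
      simpa using this
    obtain ⟨w, hw1, hw2⟩ := key 0 1 h01
    exact ⟨w, 0, 1, by simp, hw1, hw2⟩
  · obtain ⟨y, hy⟩ := IsAlgClosed.exists_root P hdeg
    have h1y : N 1 y = 0 := by rw [← hP]; exact hy
    obtain ⟨w, hw1, hw2⟩ := key 1 y h1y
    exact ⟨w, 1, y, by simp, hw1, hw2⟩

end Pool.Agent.Helper51.Flex
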